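import Pool.Agent.BES.Stmts

/-!
# Squad BES: row HPO
-/

namespace Pool.Agent.BES.H21

open Set Filter Topology MeasureTheory
open Pool.Agent.BE01
open Pool.Agent.BES

noncomputable section

theorem cos_odd_le (p : ℝ) (j : ℕ) :
    |Real.cos ((2 * j + 1) * p)| ≤ (2 * j + 1) * |Real.cos p| := by
  induction j with
  | zero => simp
  | succ j ih =>
    have e : (2 * ((j + 1 : ℕ) : ℝ) + 1) * p = (2 * (j : ℝ) + 1) * p + 2 * p := by
      push_cast; ring
    rw [e, Real.cos_add]
    have h1 : |Real.cos ((2 * (j : ℝ) + 1) * p) * Real.cos (2 * p)| ≤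
        |Real.cos ((2 * (j : ℝ) + 1) * p)| := by
      rw [abs_mul]
      exact mul_le_of_le_one_right (abs_nonneg _) (Real.abs_cos_le_one _)
    have h2 : |Real.sin ((2 * (j : ℝ) + 1) * p) * Real.sin (2 * p)| ≤ 2 * |Real.cos p| := by
      rw [abs_mul, Real.sin_two_mul, abs_mul, abs_mul]
      have a1 := Real.abs_sin_le_one ((2 * (j : ℝ) + 1) * p)
      have a2 := Real.abs_sin_le_one p
      have a3 : |(2 : ℝ)| = 2 := by norm_num
      rw [a3]
      have b1 := abs_nonneg (Real.sin ((2 * (j : ℝ) + 1) * p))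
      have b2 := abs_nonneg (Real.sin p)
      have b3 := abs_nonneg (Real.cos p)
      have c1 : 2 * |Real.sin p| * |Real.cos p| ≤ 2 * |Real.cos p| := by nlinarith
      have c2 : 0 ≤ 2 * |Real.sin p| * |Real.cos p| := by positivity
      nlinarith
    have h3 := abs_sub (Real.cos ((2 * (j : ℝ) + 1) * p) * Real.cos (2 * p))
      (Real.sin ((2 * (j : ℝ) + 1) * p) * Real.sin (2 * p))
    push_cast
    linarith

theorem mj_zero (m : ℕ) : mj m 0 = (2 * m + 1) / 2 := by
  unfold mj; push_cast; ring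

theorem mj_al (m : ℕ) : mj m 0 * al m = Real.pi / 2 := by
  rw [mj_zero]; unfold al
  have : (2 * (m : ℝ) + 1) ≠ 0 := by positivity
  field_simp

theorem al_pos (m : ℕ) : 0 < al m := by
  unfold al; exact div_pos Real.pi_pos (by positivity)

theorem al_le (m : ℕ) : al m ≤ Real.pi := by
  unfold al
  apply div_le_self Real.pi_pos.le
  have : (0 : ℝ) ≤ m := Nat.cast_nonneg m
  linarith

theorem mj_pos (m : ℕ) : 0 < mj m 0 := by
  rw [mj_zero]; positivity

theorem hpo : HpoStmt := by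
  intro m
  refine ⟨fun R x hx => ?_, fun x hx => ?_⟩
  · obtain ⟨hR, hx⟩ := hx
    have hn : 0 < ‖x‖ := by
      rcases (norm_nonneg x).lt_or_eq with h | h
      · exact h
      · exfalso
        have h0 : x = 0 := norm_eq_zero.mp h.symm
        rw [h0] at hx
        simp at hx
    have hq : Real.cos (al m) < x 0 / ‖x‖ := by
      rw [lt_div_iff₀ hn]; linarith [mul_comm ‖x‖ (Real.cos (al m))]
    have hle : x 0 / ‖x‖ ≤ 1 := by
      rw [div_le_one hn]
      exact (le_abs_self _).trans (by simpa using PiLp.norm_apply_le x 0)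
    have ht : Real.arccos (x 0 / ‖x‖) < al m := by
      have h1 := Real.arccos_lt_arccos (Real.neg_one_le_cos (al m)) hq hle
      rwa [Real.arccos_cos (al_pos m).le (al_le m)] at h1
    have ht0 : 0 ≤ Real.arccos (x 0 / ‖x‖) := Real.arccos_nonneg _
    have hph : mj m 0 * Real.arccos (x 0 / ‖x‖) < Real.pi / 2 := by
      rw [← mj_al m]
      exact mul_lt_mul_of_pos_left ht (mj_pos m)
    have hph0 : 0 ≤ mj m 0 * Real.arccos (x 0 / ‖x‖) := mul_nonneg (mj_pos m).le ht0
    have hcos : 0 < Real.cos (mj m 0 * Real.arccos (x 0 / ‖x‖)) :=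
      Real.cos_pos_of_mem_Ioo ⟨by linarith [Real.pi_pos], hph⟩
    refine ⟨mul_pos (Real.rpow_pos_of_pos hn _) hcos, fun j => ?_⟩
    have e1 : mj m j * Real.arccos (x 0 / ‖x‖) =
        (2 * j + 1) * (mj m 0 * Real.arccos (x 0 / ‖x‖)) := by
      unfold mj; push_cast; ring
    have e2 : ‖x‖ ^ (mj m j) = ‖x‖ ^ (mj m j - mj m 0) * ‖x‖ ^ (mj m 0) := by
      rw [← Real.rpow_add hn]; congr 1; ring
    have h1 := cos_odd_le (mj m 0 * Real.arccos (x 0 / ‖x‖)) j
    rw [← e1, abs_of_pos hcos] at h1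
    unfold Hf
    rw [abs_mul, e2, abs_of_nonneg (by positivity)]
    calc ‖x‖ ^ (mj m j - mj m 0) * ‖x‖ ^ (mj m 0) * |Real.cos (mj m j * Real.arccos (x 0 / ‖x‖))|
        ≤ ‖x‖ ^ (mj m j - mj m 0) * ‖x‖ ^ (mj m 0) *
          ((2 * j + 1) * Real.cos (mj m 0 * Real.arccos (x 0 / ‖x‖))) :=
          mul_le_mul_of_nonneg_left h1 (by positivity)
      _ = _ := by ring
  · unfold Hf
    rcases (norm_nonneg x).lt_or_eq with h | h
    · have e : x 0 / ‖x‖ = Real.cos (al m) := by
        rw [← hx]; field_simp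
      rw [e, Real.arccos_cos (al_pos m).le (al_le m), mj_al, Real.cos_pi_div_two, mul_zero]
    · rw [← h, Real.zero_rpow (mj_pos m).ne', zero_mul]

end

end Pool.Agent.BES.H21
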